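import Pool.Agent.U50.TDU8

set_option autoImplicit false

/-!
MP_b7840d_al, Q1: all linear maps `X` with `X V*_i ⊆ V*_0 + ⋯ + V*_i` and
`X V_i ⊆ V_{i-1} + V_i + V_{i+1}` (`0 ≤ i ≤ d`), for an arbitrary tridiagonal pair `A, A* = B`.

Definitions are in `Pool.Agent.U50.TDU7` (`IsUpper`, `Upper`, `lin`, `FormulaY`, `UPar`, `IsX`,
`Normal`, `Same`, `ProducesU`, `ExhaustsU`, `FaithfulU`, `DimUpper`), `Pool.Agent.U50.TDU3` (`l2`),
`Pool.Agent.R841.TD.Defs` (`str`, `TT`, `AA`), `Pool.Agent.R841.TD.Fin` (`Low`, `tau`, `Fam`, `ap`,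
`Formula`, `FormulaZero`, `FormulaSucc`, `Recur`, `Irred`, `DimEigenspaces`) and
`Pool.Agent.Helper9.TDBasic` (`TDOrdering`).
-/

open Module Polynomial Pool.Agent.R841.TD Pool.Agent.U50.TDU
open Pool.Agent.Helper9.TD (TDOrdering)

namespace Pool.Agent.Results.MP_b7840d_al.UpperMaps

/-- Let `A, B` be a tridiagonal pair, `V_i`, `V*_i` (`0 ≤ i ≤ d`) the eigenspaces of `A`, `B` for
`a i`, `b i` in a standard order, `L_j = (V*_0 + ⋯ + V*_j) ∩ (V_j + ⋯ + V_{d-j})` (`Low`), and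
`τ_{j,s} = ∏_{h<s} (A - a_{j+h})` (`tau`).

1. There is a `β` with `a_i - a_{i+3} = (β+1) (a_{i+1} - a_{i+2})` for `i + 3 ≤ d`.
2. For each such `β`: put `T_0 = 0, T_1 = 1, T_{n+2} = β T_{n+1} - T_n + 1`. For all linear maps
   `e_j, f_j, f'_j : L_j → L_j`, `g_j : L_j → L_{j+2}`, `l_j : L_{j+2} → L_j` there is exactly one
   `Y` with
   `Y τ_{j,s} q = τ_{j,s} e_j q + T_s (A - a_{d-j}) τ_{j,s-1} f_j q`
   `  + T_{s-1} (A - a_{d-j}) τ_{j,s-1} f'_j q + T_{s-1} τ_{j+1,s-2} g_j q`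
   `  + T_{d+1-2j-s} (A - a_{d+2-j}) τ_{j-2,s+1} l_{j-2} q`
   for `2j + s ≤ d` and `q ∈ L_j` (last term only if `j ≥ 2`), and for all `f_j : L_j → L_j`,
   `g_j : L_j → L_{j+1}`, `h_j : L_{j+1} → L_j` there is exactly one `Λ` with
   `Λ τ_{j,s} q = (∑_{t<s} (a_{j+t} - a_{d-j-t})) τ_{j,s-1} f_j q + T_{s-1} τ_{j+1,s-2} g_j q
     + T_{d+1-2j-s} τ_{j-1,s} h_{j-1} q`  (last term only if `j ≥ 1`).
   The maps `X = Y + Λ₁ + A Λ₂ + Λ₃ A` (where the `f_j` of `Λ₂` and `Λ₃` are `0`) satisfy both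
   conditions of the problem (`ProducesU`), and every `X` that satisfies the two conditions is of
   this form, where one can choose `g_j = 0` in `Λ₂` and `h_j = 0` in `Λ₃` if `2j + 2 = d`
   (`ExhaustsU`, `Normal`); the parameters are then determined by `X` wherever they matter
   (`FaithfulU`, `Same`).
3. (`DimUpper`) With `n_j = dim L_j`, the dimension of the space of all `X` is
   `∑_{2j≤d} n_j² + 2 ∑_{2j+1≤d} n_j² + ∑_{2j+2≤d} n_j² + 4 ∑_{2j+2≤d} n_j n_{j+1}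
     + 2 ∑_{2j+3≤d} n_j n_{j+1} + 2 ∑_{2j+4≤d} n_j n_{j+2}`.
4. (`DimEigenspaces`) `dim V_i = ∑_{j ≤ min(i, d-i)} n_j` (so the dimension in 3 is explicit in the
   dimensions of the eigenspaces). -/
theorem result {K : Type*} [Field K] {V : Type*} [AddCommGroup V] [Module K V]
    [FiniteDimensional K V] {A B : Module.End K V} {d : ℕ} {a b : ℕ → K}
    (hA : TDOrdering A B d a) (hB : TDOrdering B A d b) (irred : Irred A B) :
    (∃ β : K, Recur d a β) ∧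
    (∀ β : K, Recur d a β →
      ProducesU A B d a b β ∧ ExhaustsU A B d a b β ∧ FaithfulU A B d a b β) ∧
    DimUpper A B d a b ∧ DimEigenspaces A B d a b :=
  ⟨(main hA hB irred).2.1, mainU hA hB irred, mainU_dim hA hB irred, (main_dim hA hB irred).2⟩

end Pool.Agent.Results.MP_b7840d_al.UpperMaps
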