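import Pool.Agent.U962.TU.Final

set_option autoImplicit false

/-!
# MP_b7840d_al, Q1: all linear maps which are tridiagonal on one eigenspace flag and triangular on
the other

`A, A* = B` is an arbitrary tridiagonal pair over an arbitrary field, with eigenspaces `V_i`, `V*_i`
for the eigenvalues `a i`, `b i` (`0 ≤ i ≤ d`) in a standard order. We determine all linear maps `X`
with `X V*_i ⊆ V*_0 + ⋯ + V*_i` and `X V_i ⊆ V_{i-1} + V_i + V_{i+1}` (`0 ≤ i ≤ d`).

Let `L_j = (V*_0 + ⋯ + V*_j) ∩ (V_j + ⋯ + V_{d-j})` (`Low`), `τ_{j,s} = ∏_{h<s} (A - a_{j+h})`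
(`tau`), `σ_j = (A - a_j) (A - a_{d-j})` (`sig`), let `β` be a number with
`a_i - a_{i+3} = (β+1) (a_{i+1} - a_{i+2})`, and `T_0 = 0`, `T_1 = 1`,
`T_{n+2} = β T_{n+1} - T_n + 1` (`TT`). Every vector of `V` is in a unique way a sum of vectors
`τ_{j,s} q_{j,s}` with `q_{j,s} ∈ L_j`, `2 j + s ≤ d`.

The maps `X` are exactly the maps `X = Y + Λ₀ + A Λ₁ + Λ₂ A`, where for `q ∈ L_j`

`Y τ_{j,s} q = τ_{j,s} e_j q + T_{s-1} σ_j τ_{j+1,s-2} e'_j q + T_{s-1} τ_{j+1,s-2} p_j q
  + T_{d+1-2j-s} σ_{j-2} τ_{j-1,s} r_{j-2} q`,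

and `Λ₀`, `Λ₁`, `Λ₂` are the maps lowering the flag `V*_0 + ⋯ + V*_i` of the starting result
`MP_770f2c_al.LoweringMaps`,

`Λ τ_{j,s} q = (∑_{t<s} (a_{j+t} - a_{d-j-t})) τ_{j,s-1} f_j q + T_{s-1} τ_{j+1,s-2} g_j q
  + T_{d+1-2j-s} τ_{j-1,s} h_{j-1} q`,

with parameters `f, g, h`, `f', g', h'` and `0, g'', h''`. Here the twelve families of linear maps
`e_j, e'_j, f_j, f'_j : L_j → L_j`, `g_j, g'_j, g''_j : L_j → L_{j+1}`,
`h_j, h'_j, h''_j : L_{j+1} → L_j`, `p_j : L_j → L_{j+2}`, `r_j : L_{j+2} → L_j` (`Params`, with the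
ranges of `j` given there) are arbitrary and are determined by `X`. So the space of all `X` has the
dimension `∑ m_j n_j² + 2 ∑ m'_j n_j n_{j+1} + 2 ∑_{2j+4≤d} n_j n_{j+2}` with `n_j = dim L_j`,
`m_j = 4, 3, 1` for `2 j + 2 ≤ d`, `2 j + 1 = d`, `2 j = d`, and `m'_j = 3, 2` for `2 j + 3 ≤ d`,
`2 j + 2 = d` (`DimUpper`); for a Leonard pair with `d ≥ 2` it is `4`.

Proof. A component `L_j → L_l` of `X` is an operator on polynomials on the grid of the `a_i`; it is
tridiagonal, so it is determined by its values on polynomials of degree at most two, and counting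
zeros leaves twelve coordinates in all; so the space of all `X` embeds in the space of the
parameters, and the maps above satisfy the two conditions and their twelve coordinates are a
triangular function of the parameters.

Definitions are in `Pool.Agent.U962.TU.Final`, `Pool.Agent.U962.TU.Bij` (`FFam`, `ext0`),
`Pool.Agent.R841.TD.Fin` (`Low`, `tau`, `ap`, `Fam`, `Formula`, `Recur`, `Irred`, `StringDecomp`,
`DimEigenspaces`), `Pool.Agent.R841.TD.Defs` (`str`, `TT`, `AA`), `Pool.Agent.R841.TD.Dec` (`II`)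
and `Pool.Agent.Helper9.TDBasic` (`TDOrdering`).
-/

open Module Polynomial Pool.Agent.R841.TD Pool.Agent.U962.TU
open Pool.Agent.Helper9.TD (TDOrdering)

namespace Pool.Agent.Results.MP_b7840d_al.UpperTriangularMaps

/-- Let `A, B` be a tridiagonal pair, `V_i`, `V*_i` (`0 ≤ i ≤ d`) the eigenspaces of `A`, `B` for
`a i`, `b i` in a standard order, `L_j = (V*_0 + ⋯ + V*_j) ∩ (V_j + ⋯ + V_{d-j})` (`Low`), and
`τ_{j,s} = ∏_{h<s} (A - a_{j+h})` (`tau`).

1. (`StringDecomp`) Every `v` is uniquely `∑ τ_{j,s} q_{j,s}` (`2j + s ≤ d`, `q_{j,s} ∈ L_j`).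
2. There is a `β` with `a_i - a_{i+3} = (β+1) (a_{i+1} - a_{i+2})` for `i + 3 ≤ d`.
3. For each such `β`: for every choice of the twelve families of linear maps (`Params`) there is
   exactly one `X = Y + Λ₀ + A Λ₁ + Λ₂ A` given by the formulas (`IsMap`), and it satisfies
   `X V*_i ⊆ V*_0 + ⋯ + V*_i` and `X V_i ⊆ V_{i-1} + V_i + V_{i+1}` (`ProducesUpper`); and every `X`
   that satisfies the two conditions arises from exactly one choice (`ExhaustsUpper`).
4. (`DimUpper`) The dimension of the space of all `X` is `∑_{2j≤d} n_j² + 2 ∑_{2j+1≤d} n_j² +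
   ∑_{2j+2≤d} n_j² + 4 ∑_{2j+2≤d} n_j n_{j+1} + 2 ∑_{2j+3≤d} n_j n_{j+1} +
   2 ∑_{2j+4≤d} n_j n_{j+2}`, `n_j = dim L_j`.
5. (`DimEigenspaces`) `dim V_i = ∑_{j ≤ min(i, d-i)} n_j` (so `n_j = dim V_j - dim V_{j-1}` for
   `2j ≤ d`, and the dimension in 4 is explicit in the dimensions of the eigenspaces). -/
theorem result {K : Type*} [Field K] {V : Type*} [AddCommGroup V] [Module K V]
    [FiniteDimensional K V] {A B : Module.End K V} {d : ℕ} {a b : ℕ → K}
    (hA : TDOrdering A B d a) (hB : TDOrdering B A d b) (irred : Irred A B) :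
    StringDecomp A B d a b ∧ (∃ β : K, Recur d a β) ∧
    (∀ β : K, Recur d a β → ProducesUpper A B d a b β ∧ ExhaustsUpper A B d a b β) ∧
    DimUpper A B d a b ∧ DimEigenspaces A B d a b := by
  obtain ⟨h1, h2, -⟩ := Pool.Agent.R841.TD.main hA hB irred
  obtain ⟨h3, h4⟩ := Pool.Agent.U962.TU.main hA hB irred
  exact ⟨h1, h2, h3, h4, (main_dim hA hB irred).2⟩

end Pool.Agent.Results.MP_b7840d_al.UpperTriangularMaps
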